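import Mathlib
import Pool.Agent.Y201.LI.Stm4
import Pool.Agent.Y201.LI.Thm3
import Pool.Agent.Y363.LI.Tri
import Pool.Agent.Y394.LI.BpfJob

/-!
# Linear subspaces whose residual quadric is a double hyperplane on one more dimension have no
section (job NOSEC)
-/

set_option autoImplicit false

namespace Pool.Agent.Y927.LI

open MvPolynomial Pool.Agent.Y363.LI

noncomputable section

/-- the common power of the parameter can be removed from a family of polynomials -/
theorem remove_pow {R J : Type} [CommRing R] (U : J → Polynomial R)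
    (h : ∃ j, U j ≠ 0) :
    ∃ (k : ℕ) (u : J → Polynomial R), (∀ j, U j = Polynomial.X ^ k * u j) ∧
      ∃ j, (u j).coeff 0 ≠ 0 := by
  classical
  have hex : ∃ n, ∃ j, (U j).coeff n ≠ 0 := by
    obtain ⟨j, hj⟩ := h
    by_contra hcon
    push Not at hcon
    exact hj (Polynomial.ext fun n => by rw [hcon n j, Polynomial.coeff_zero])
  have hk := Nat.find_spec hex
  set k := Nat.find hex with hkdef
  have hdvd : ∀ j, (Polynomial.X ^ k : Polynomial R) ∣ U j := by
    intro j
    rw [Polynomial.X_pow_dvd_iff]
    intro d hd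
    have := Nat.find_min hex hd
    push Not at this
    exact this j
  choose u hu using hdvd
  refine ⟨k, u, hu, ?_⟩
  obtain ⟨j, hj⟩ := hk
  refine ⟨j, ?_⟩
  have h1 := Polynomial.coeff_X_pow_mul (u j) k 0
  rw [zero_add, ← hu j] at h1
  rwa [← h1]

theorem Bf_sum3 {r : ℕ} {R : Type} [CommRing R] [Algebra ℂ R] {T : Fin r → Fin r → Fin r → ℂ}
    {J : Type} (s : Finset J) (x y : Fin r → R) (z : J → Fin r → R) :
    Bf T x y (∑ j ∈ s, z j) = ∑ j ∈ s, Bf T x y (z j) := by
  classical
  induction s using Finset.induction_on with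
  | empty => rw [Finset.sum_empty, Finset.sum_empty, Bf_zero3]
  | insert a s ha ih => rw [Finset.sum_insert ha, Finset.sum_insert ha, Bf_add3, ih]

/-- no zero of the polar form of the generic point over the rational functions -/
theorem no_polar {r : ℕ} {F : MvPolynomial (Fin r) ℂ} (hF : F.IsHomogeneous 3)
    (hsm : ∀ z : Fin r → ℂ, (∀ i, eval z (pderiv i F) = 0) → z = 0)
    (y : Fin r → MvPolynomial (Fin r) ℂ) (hy : y ≠ 0)
    (h : ∑ i, X i * aeval y (pderiv i F) = 0) : False := by
  classical
  let R0 := MvPolynomial (Fin r) ℂ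
  let K := FractionRing R0
  let al : R0 →ₐ[ℂ] K := IsScalarTower.toAlgHom ℂ _ K
  have hal : Function.Injective al := IsFractionRing.injective R0 K
  have hbpf := Pool.Agent.Y394.LI.bpf r F hsm 3 hF
  have hXmem : ∀ i : Fin r, al (X i) ∈ IntermediateField.adjoin ℂ
      (Set.range (fun i : Fin r => al (X i)) ∪ Set.range (Empty.elim : Empty → K)) := by
    intro i
    exact IntermediateField.subset_adjoin _ _ (Or.inl ⟨i, rfl⟩)
  have htop : IntermediateField.adjoin ℂ
      (Set.range (fun i : Fin r => al (X i)) ∪ Set.range (Empty.elim : Empty → K)) = ⊤ := by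
    set L := IntermediateField.adjoin ℂ
      (Set.range (fun i : Fin r => al (X i)) ∪ Set.range (Empty.elim : Empty → K)) with hL
    have hP : ∀ P : R0, al P ∈ L := by
      intro P
      induction P using MvPolynomial.induction_on with
      | C a => exact L.algebraMap_mem a
      | add p q hp hq => rw [map_add]; exact add_mem hp hq
      | mul_X p i hp => rw [map_mul]; exact mul_mem hp (hXmem i)
    rw [eq_top_iff]
    intro z _
    obtain ⟨a, b, hab⟩ := IsFractionRing.div_surjective (A := R0) z
    rw [← hab.2]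
    exact div_mem (hP a) (hP b)
  have hind : AlgebraicIndependent ℂ
      (Sum.elim (fun i : Fin r => al (X i)) (Empty.elim : Empty → K)) := by
    have h1 : AlgebraicIndependent ℂ (fun i : Fin r => al (X i)) := by
      have h2 := (MvPolynomial.algebraicIndependent_X (Fin r) ℂ)
      exact h2.map' hal
    have h3 : (Sum.elim (fun i : Fin r => al (X i)) (Empty.elim : Empty → K)) =
        (fun i : Fin r => al (X i)) ∘ (Equiv.sumEmpty (Fin r) Empty) := by
      funext x
      rcases x with x | x
      · rfl
      · exact x.elim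
    rw [h3]
    exact h1.comp _ (Equiv.injective _)
  have hy' : (fun i => al (y i)) ≠ 0 := by
    intro h0
    apply hy
    funext i
    have h1 : al (y i) = 0 := congrFun h0 i
    exact hal (by rw [h1, Pi.zero_apply, map_zero])
  have hev : ∀ G : R0, eval₂ ((algebraMap K K).comp (algebraMap ℂ K)) (fun i => al (y i)) G =
      al (aeval y G) := by
    intro G
    have h1 : al (aeval y G) = aeval (fun i => al (y i)) G := by
      rw [← AlgHom.comp_apply]
      congr 1
      apply MvPolynomial.algHom_ext
      intro i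
      rw [AlgHom.comp_apply, aeval_X, aeval_X]
    rw [h1]
    rfl
  have h2 := Pool.Agent.Y201.LI.hone ℂ r 2 r ∅ (fun i => pderiv i F) (by simp)
    (fun i => hF.pderiv) hbpf Empty K K (fun i => al (X i)) Empty.elim hind htop
    (fun i => al (y i)) hy' (by simp) (by
      have h3 := congrArg al h
      rw [map_sum, map_zero] at h3
      rw [← h3]
      refine Finset.sum_congr rfl fun i _ => ?_
      rw [map_mul, hev]
      rfl)
  rw [Module.finrank_self] at h2
  omega

theorem nosec : Pool.Agent.Y201.LI.S_NOSEC := by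
  classical
  intro r m F hF hsm p hp _ η l0 l hη hid ⟨V, W, hW, hVW⟩
  obtain ⟨T, hT, hFT, hder⟩ := exists_T F hF
  -- values of `F`
  have hev : ∀ (R : Type) [CommRing R] [Algebra ℂ R] (x : Fin r → R),
      aeval x F = Bf T x x x := by
    intro R _ _ x
    conv_lhs => rw [hFT]
    rw [map_Bf]
    simp only [aeval_X]
  -- the family
  let P : Option (Fin m) → Fin r → ℂ := fun o => o.elim η p
  have hP : LinearIndependent ℂ P := by
    have h1 := linearIndependent_option'.2 ⟨hp, hη⟩
    have h2 : P = fun o => Option.casesOn' o η p := by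
      funext o
      rcases o with _ | a <;> rfl
    rw [h2]
    exact h1
  let lm : Option (Fin m) → ℂ := fun o => o.elim l0 l
  -- the identity for the restriction
  have hid' : ∀ (R : Type) [CommRing R] [Algebra ℂ R] (u : Option (Fin m) → R),
      Bf T (fun i => ∑ o, u o * algebraMap ℂ R (P o i)) (fun i => ∑ o, u o * algebraMap ℂ R (P o i))
        (fun i => ∑ o, u o * algebraMap ℂ R (P o i)) =
      u none * (∑ o, u o * algebraMap ℂ R (lm o)) ^ 2 := by
    intro R _ _ u
    have h1 : aeval (fun i => ∑ o, (X o : MvPolynomial (Option (Fin m)) ℂ) * C (P o i)) F =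
        X none * (∑ o, X o * C (lm o)) ^ 2 := by
      apply MvPolynomial.funext
      intro c
      have h2 : eval c (aeval (fun i => ∑ o, (X o : MvPolynomial (Option (Fin m)) ℂ) *
          C (P o i)) F) = eval (fun i => ∑ o, c o * P o i) F := by
        have h3 : (aeval c : MvPolynomial (Option (Fin m)) ℂ →ₐ[ℂ] ℂ)
            (aeval (fun i => ∑ o, (X o : MvPolynomial (Option (Fin m)) ℂ) * C (P o i)) F) =
            (aeval (fun i => ∑ o, c o * P o i) : MvPolynomial (Fin r) ℂ →ₐ[ℂ] ℂ) F := by
          rw [← AlgHom.comp_apply]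
          congr 1
          apply MvPolynomial.algHom_ext
          intro i
          rw [AlgHom.comp_apply, aeval_X, aeval_X, map_sum]
          refine Finset.sum_congr rfl fun o _ => ?_
          rw [map_mul, aeval_X, aeval_C]
          rfl
        exact h3
      rw [h2]
      have h4 : (fun i => ∑ o, c o * P o i) = c none • η + ∑ a, c (some a) • p a := by
        funext i
        rw [Fintype.sum_option, Pi.add_apply, Finset.sum_apply]
        rfl
      rw [h4, hid (c none) (fun a => c (some a))]
      rw [map_mul, map_pow, map_sum, eval_X, Fintype.sum_option]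
      simp only [map_mul, eval_X, eval_C]
      rfl
    have h5 := congrArg (aeval u : MvPolynomial (Option (Fin m)) ℂ →ₐ[ℂ] R) h1
    rw [map_mul, map_pow, map_sum, aeval_X] at h5
    simp only [map_mul, aeval_X, aeval_C] at h5
    rw [← h5, hev, map_Bf]
    simp only [map_sum, map_mul, aeval_X, aeval_C]
  -- the specialization
  let R0 := MvPolynomial (Fin r) ℂ
  let S := Polynomial R0
  let φ : R0 →ₐ[ℂ] S := aeval fun i => Polynomial.C (C (η i)) + Polynomial.X * Polynomial.C (X i)
  have hφ0 : φ W ≠ 0 := by
    intro h0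
    let ψ : S →ₐ[ℂ] R0 := (aeval (fun i => X i - C (η i)) : R0 →ₐ[ℂ] R0).comp
      ((Polynomial.aeval (1 : R0)).restrictScalars ℂ)
    have h1 : ψ.comp φ = AlgHom.id ℂ R0 := by
      apply MvPolynomial.algHom_ext
      intro i
      rw [AlgHom.comp_apply]
      show ψ (aeval _ (X i)) = X i
      rw [aeval_X]
      show (aeval (fun i => X i - C (η i)) : R0 →ₐ[ℂ] R0) (Polynomial.aeval (1 : R0)
        (Polynomial.C (C (η i)) + Polynomial.X * Polynomial.C (X i))) = X i
      rw [map_add, map_mul, Polynomial.aeval_C, Polynomial.aeval_X, Polynomial.aeval_C, one_mul]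
      show (aeval (fun i => X i - C (η i)) : R0 →ₐ[ℂ] R0) (C (η i) + X i) = X i
      rw [map_add, aeval_C, aeval_X]
      show C (η i) + (X i - C (η i)) = X i
      ring
    have h2 : ψ (φ W) = W := DFunLike.congr_fun h1 W
    rw [h0, map_zero] at h2
    exact hW h2.symm
  obtain ⟨k, u, hu, o0, ho0⟩ := remove_pow
    (fun o : Option (Fin m) => o.elim (φ W) (fun a => φ (V a))) ⟨none, hφ0⟩
  have huW : φ W = Polynomial.X ^ k * u none := hu none
  have huV : ∀ a, φ (V a) = Polynomial.X ^ k * u (some a) := fun a => hu (some a)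
  have hu0 : u none ≠ 0 := by
    intro h0
    rw [h0, mul_zero] at huW
    exact hφ0 huW
  let ξ : Fin r → S := fun i => Polynomial.C (X i)
  let π : Fin r → S := fun i => ∑ o, u o * algebraMap ℂ S (P o i)
  set t : S := Polynomial.X with ht
  have ht0 : t ≠ 0 := Polynomial.X_ne_zero
  have hy : Bf T (π + (t * u none) • ξ) (π + (t * u none) • ξ) (π + (t * u none) • ξ) = 0 := by
    have h1 := congrArg φ hVW
    rw [map_zero, hev, map_Bf] at h1
    have h2 : (fun i => φ (W * X i + ∑ a, V a * C (p a i))) =
        t ^ k • (π + (t * u none) • ξ) := by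
      funext i
      rw [map_add, map_mul, map_sum]
      have h3 : φ (X i) = Polynomial.C (C (η i)) + t * Polynomial.C (X i) := by
        show aeval _ (X i) = _
        rw [aeval_X]
      have h4 : ∀ c : ℂ, φ (C c) = algebraMap ℂ S c := fun c => φ.commutes c
      simp only [map_mul, huV, h3, h4, huW]
      rw [Pi.smul_apply, Pi.add_apply, Pi.smul_apply]
      show _ = t ^ k * ((∑ o, u o * algebraMap ℂ S (P o i)) + (t * u none) * Polynomial.C (X i))
      rw [Fintype.sum_option]
      have h5 : (Polynomial.C (C (η i)) : S) = algebraMap ℂ S (P none i) := rfl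
      have h6 : ∑ a, t ^ k * u (some a) * algebraMap ℂ S (p a i) =
          t ^ k * ∑ a, u (some a) * algebraMap ℂ S (P (some a) i) := by
        rw [Finset.mul_sum]
        refine Finset.sum_congr rfl fun a _ => ?_
        rw [mul_assoc]
        rfl
      rw [h6, h5]
      ring
    rw [h2, Bf_smul1, Bf_smul2, Bf_smul3] at h1
    have h7 : t ^ k ≠ 0 := pow_ne_zero _ ht0
    exact (mul_eq_zero.1 ((mul_eq_zero.1 ((mul_eq_zero.1 h1).resolve_left h7)).resolve_left
      h7)).resolve_left h7
  rw [cube hT, hid' S u] at hy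
  set Lf : S := ∑ o, u o * algebraMap ℂ S (lm o) with hLf
  have hy2 : Lf ^ 2 + t * (3 * Bf T π π ξ + 3 * (t * u none) * Bf T π ξ ξ +
      (t * u none) ^ 2 * Bf T ξ ξ ξ) = 0 := by
    apply mul_left_cancel₀ hu0
    rw [mul_zero, ← hy]
    ring
  have hdvd : t ∣ Lf := by
    have h1 : t ∣ Lf ^ 2 := by
      refine ⟨-(3 * Bf T π π ξ + 3 * (t * u none) * Bf T π ξ ξ +
        (t * u none) ^ 2 * Bf T ξ ξ ξ), ?_⟩
      linear_combination hy2
    exact Polynomial.prime_X.dvd_of_dvd_pow h1
  obtain ⟨L', hL'⟩ := hdvd
  have hy3 : t * L' ^ 2 + (3 * Bf T π π ξ + 3 * (t * u none) * Bf T π ξ ξ +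
      (t * u none) ^ 2 * Bf T ξ ξ ξ) = 0 := by
    apply mul_left_cancel₀ ht0
    rw [mul_zero, ← hy2, hL']
    ring
  -- specialize the parameter to zero
  let ε : S →ₐ[ℂ] R0 := (Polynomial.aeval (0 : R0)).restrictScalars ℂ
  have hεt : ε t = 0 := Polynomial.aeval_X 0
  set π0 : Fin r → R0 := fun i => ∑ o, ε (u o) * C (P o i) with hπ0
  have hεπ : (fun i => ε (π i)) = π0 := by
    funext i
    show ε (∑ o, u o * algebraMap ℂ S (P o i)) = _
    rw [map_sum]
    refine Finset.sum_congr rfl fun o _ => ?_
    rw [map_mul, ε.commutes]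
    rfl
  have hεξ : (fun i => ε (ξ i)) = X := by
    funext i
    exact Polynomial.aeval_C 0 (X i)
  have hy4 : 3 * Bf T π0 π0 X = 0 := by
    have h1 := congrArg ε hy3
    simp only [map_add, map_mul, map_pow, map_zero, hεt, map_Bf, hεπ, hεξ, zero_mul, zero_add,
      mul_zero, add_zero, map_ofNat, ne_eq, OfNat.ofNat_ne_zero, not_false_eq_true, zero_pow] at h1
    exact h1
  -- `π0` is not zero
  have hπne : π0 ≠ 0 := by
    intro h0
    have hall : ∀ o, ε (u o) = 0 := by
      intro o
      apply MvPolynomial.funext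
      intro z
      rw [map_zero]
      have h1 : ∑ o, eval z (ε (u o)) • P o = 0 := by
        funext i
        have h2 := congrArg (eval z) (congrFun h0 i)
        rw [hπ0] at h2
        simp only [map_sum, map_mul, eval_C, Pi.zero_apply, map_zero] at h2
        rw [Finset.sum_apply, Pi.zero_apply, ← h2]
        rfl
      exact Fintype.linearIndependent_iff.1 hP _ h1 o
    apply ho0
    have h3 := hall o0
    have h4 : ε (u o0) = (u o0).coeff 0 := by
      show Polynomial.aeval (0 : R0) (u o0) = _
      rw [Polynomial.coeff_zero_eq_aeval_zero]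
    rw [← h4, h3]
  -- the polar form
  apply no_polar hF hsm π0 hπne
  have hpd : ∀ i, pderiv i F = 3 * Bf T X X (Pi.single i 1) := by
    intro i
    apply MvPolynomial.funext
    intro w
    rw [hder w i]
    have h1 : eval w (Bf T X X (Pi.single i 1) : R0) = Bf T w w (Pi.single i 1) := by
      have h2 := map_Bf (T := T) (aeval w : R0 →ₐ[ℂ] ℂ) X X (Pi.single i 1)
      have h3 : (fun j => (aeval w : R0 →ₐ[ℂ] ℂ) ((Pi.single i 1 : Fin r → R0) j)) =
          Pi.single i 1 := by
        funext j
        by_cases hj : j = i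
        · subst hj
          rw [Pi.single_eq_same, Pi.single_eq_same, map_one]
        · rw [Pi.single_eq_of_ne hj, Pi.single_eq_of_ne hj, map_zero]
      have h4 : (fun j => (aeval w : R0 →ₐ[ℂ] ℂ) (X j)) = w := by
        funext j
        exact aeval_X w j
      rw [h3, h4] at h2
      exact h2
    rw [map_mul, h1, map_ofNat]
  have hpd2 : ∀ i, aeval π0 (pderiv i F) = 3 * Bf T π0 π0 (Pi.single i 1) := by
    intro i
    rw [hpd i, map_mul, map_Bf, map_ofNat]
    have h3 : (fun j => (aeval π0 : R0 →ₐ[ℂ] R0) ((Pi.single i 1 : Fin r → R0) j)) =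
        Pi.single i 1 := by
      funext j
      by_cases hj : j = i
      · subst hj
        rw [Pi.single_eq_same, map_one]
      · rw [Pi.single_eq_of_ne hj, map_zero]
    have h4 : (fun j => (aeval π0 : R0 →ₐ[ℂ] R0) (X j)) = π0 := by
      funext j
      exact aeval_X π0 j
    rw [h3, h4]
  have hX : (X : Fin r → R0) = ∑ i, (X i : R0) • Pi.single i 1 := by
    exact pi_eq_sum_univ' X
  rw [hX, Bf_sum3] at hy4
  rw [← hy4, Finset.mul_sum]
  refine Finset.sum_congr rfl fun i _ => ?_
  rw [hpd2, Bf_smul3]
  ring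

end

end Pool.Agent.Y927.LI
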